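import Mathlib

set_option autoImplicit false

namespace Pool.Agent.Results.MP_925f0d_gt.EveryDim

/-- Multiplication by the real number `a` on the one-point compactification of `ℝᵏ`:
the usual product on `ℝᵏ`, and `∞ ↦ ∞`.  (It is only used for `a ≠ 0`, or at a finite point.) -/
noncomputable def scale {k : ℕ} (a : ℝ) : OnePoint (Fin k → ℝ) → OnePoint (Fin k → ℝ) :=
  OnePoint.map (fun x => a • x)

/-- The projective translation equation `(1 - z) φ(x) = φ(φ(x z) (1 - z) / z)`, required for
`x ∈ ℝᵏ` and real `z ≠ 0` whenever both sides are defined, where `a · ∞ = ∞` for `a ≠ 0` and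
`0 · ∞` is undefined (so for `z = 1` it is required when `φ(x)` is finite). -/
def IsProjective {k : ℕ} (φ : OnePoint (Fin k → ℝ) → OnePoint (Fin k → ℝ)) : Prop :=
  ∀ (x : Fin k → ℝ) (z : ℝ), z ≠ 0 → (z ≠ 1 ∨ φ (OnePoint.some x) ≠ OnePoint.infty) →
    scale (1 - z) (φ (OnePoint.some x)) =
      φ (scale ((1 - z) / z) (φ (OnePoint.some (z • x))))

/-- The map `φ₁` of the problem: `(φ₁(x))ⱼ = (∑ xᵢ² + k xⱼ) / ∑ (xᵢ + 1)²` on `ℝᵏ` (with value `∞`
where the denominator vanishes), and `φ₁(∞) = (1, …, 1)`, its limit at `∞`. -/
noncomputable def phiOne (k : ℕ) : OnePoint (Fin k → ℝ) → OnePoint (Fin k → ℝ) :=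
  fun p => match p with
  | Option.none => OnePoint.some (fun _ => 1)
  | Option.some x =>
      if ∑ i, (x i + 1) ^ 2 = 0 then OnePoint.infty
      else OnePoint.some (fun j => (∑ i, x i ^ 2 + (k : ℝ) * x j) / ∑ i, (x i + 1) ^ 2)

/-- The map `φ_∞` of the problem with vector `d`: `(φ_∞(x))ⱼ = dⱼ (∑ xᵢ)² + xⱼ` and `∞ ↦ ∞`. -/
noncomputable def phiInf (k : ℕ) (d : Fin k → ℝ) : OnePoint (Fin k → ℝ) → OnePoint (Fin k → ℝ) :=
  OnePoint.map (fun x j => d j * (∑ i, x i) ^ 2 + x j)

/-- The quadratic shear `x ↦ x + (∑_{i ≠ l} xᵢ²) e_l` of `ℝᵏ`. -/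
noncomputable def shearFun (k : ℕ) (l : Fin k) (x : Fin k → ℝ) : Fin k → ℝ :=
  fun j => x j + (if j = l then ∑ i, (if i = l then 0 else x i ^ 2) else 0)

lemma quad_shift {k : ℕ} (l : Fin k) (x : Fin k → ℝ) (c : ℝ) :
    ∑ i, (if i = l then 0 else (x i + (if i = l then c else 0)) ^ 2) =
      ∑ i, (if i = l then 0 else x i ^ 2) := by
  refine Finset.sum_congr rfl fun i _ => ?_
  by_cases h : i = l <;> simp [h]

/-- The shear as a homeomorphism of `ℝᵏ`. -/
noncomputable def shearHomeo (k : ℕ) (l : Fin k) : (Fin k → ℝ) ≃ₜ (Fin k → ℝ) where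
  toFun := shearFun k l
  invFun x := fun j => x j + (if j = l then -∑ i, (if i = l then 0 else x i ^ 2) else 0)
  left_inv x := by
    funext j
    by_cases hj : j = l
    · subst hj
      have := quad_shift j x (∑ i, (if i = j then 0 else x i ^ 2))
      simp only [shearFun, if_true]
      rw [this]
      ring
    · simp [shearFun, hj]
  right_inv x := by
    funext j
    by_cases hj : j = l
    · subst hj
      have := quad_shift j x (-∑ i, (if i = j then 0 else x i ^ 2))
      simp only [shearFun, if_true]
      rw [this]
      ring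
    · simp [shearFun, hj]
  continuous_toFun := by
    refine continuous_pi fun j => ?_
    unfold shearFun
    refine (continuous_apply j).add ?_
    split_ifs
    · refine continuous_finsetSum _ fun i _ => ?_
      split_ifs
      · exact continuous_const
      · exact (continuous_apply i).pow 2
    · exact continuous_const
  continuous_invFun := by
    refine continuous_pi fun j => ?_
    refine (continuous_apply j).add ?_
    split_ifs
    · refine (continuous_finsetSum _ fun i _ => ?_).neg
      split_ifs
      · exact continuous_const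
      · exact (continuous_apply i).pow 2
    · exact continuous_const

/-- Points fixed by the shear have all coordinates zero but the one with index `l`. -/
lemma fixed_axis {k : ℕ} (l : Fin k) (x : Fin k → ℝ) (h : shearFun k l x = x) :
    ∀ i, i ≠ l → x i = 0 := by
  have h1 := congrFun h l
  simp only [shearFun, if_true] at h1
  have h2 : ∑ i, (if i = l then 0 else x i ^ 2) = 0 := by linarith
  rw [Finset.sum_eq_zero_iff_of_nonneg] at h2
  · intro i hi
    have := h2 i (Finset.mem_univ i)
    simpa [hi] using this
  · intro i _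
    split_ifs
    · exact le_refl 0
    · exact sq_nonneg _

/-- **For every `k ≥ 3`** the classification asked for fails: for some index `l`, the quadratic shear
`x ↦ x + (∑_{i ≠ l} xᵢ²) e_l`, `∞ ↦ ∞` is a continuous solution of the projective translation
equation on the one-point compactification of `ℝᵏ`, it is not one of the maps `x`, `0`, `∞`, and no
1-homogeneous bijection `ℓ` of `ℝᵏ`, continuous or not, conjugates it to `φ₁` or to any `φ_∞`
with `d ≠ 0`, `∑ dᵢ = 0`. -/
theorem result (k : ℕ) (hk : 3 ≤ k) :
    ∃ (l : Fin k) (φ : OnePoint (Fin k → ℝ) → OnePoint (Fin k → ℝ)),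
      (∀ x, φ (OnePoint.some x) = OnePoint.some (shearFun k l x)) ∧
      φ OnePoint.infty = OnePoint.infty ∧
      Continuous φ ∧ IsProjective φ ∧
      φ ≠ id ∧ φ ≠ (fun _ => OnePoint.some 0) ∧ φ ≠ (fun _ => OnePoint.infty) ∧
      ∀ ℓ : (Fin k → ℝ) ≃ (Fin k → ℝ), (∀ (c : ℝ) (x : Fin k → ℝ), ℓ (c • x) = c • ℓ x) →
        OnePoint.map ℓ.symm ∘ φ ∘ OnePoint.map ℓ ≠ phiOne k ∧
        ∀ d : Fin k → ℝ, d ≠ 0 → ∑ i, d i = 0 →
          OnePoint.map ℓ.symm ∘ φ ∘ OnePoint.map ℓ ≠ phiInf k d := by
  let l : Fin k := ⟨k - 1, by omega⟩
  let a : Fin k := ⟨0, by omega⟩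
  let b : Fin k := ⟨1, by omega⟩
  have hal : a ≠ l := by
    intro h
    have := congrArg Fin.val h
    simp only [a, l] at this
    omega
  have hbl : b ≠ l := by
    intro h
    have := congrArg Fin.val h
    simp only [b, l] at this
    omega
  have hab : a ≠ b := by
    intro h
    have := congrArg Fin.val h
    simp [a, b] at this
  have hval : ∀ x : Fin k → ℝ,
      OnePoint.map (shearFun k l) (OnePoint.some x) = OnePoint.some (shearFun k l x) :=
    fun x => rfl
  have hsing : shearFun k l (Pi.single a 1) ≠ Pi.single a 1 := by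
    intro h
    have := fixed_axis l _ h a hal
    simp at this
  refine ⟨l, OnePoint.map (shearFun k l), hval, rfl,
    (shearHomeo k l).onePointCongr.continuous, ?_, ?_, ?_, ?_, ?_⟩
  · -- the projective translation equation
    intro x z hz _
    change OnePoint.some ((1 - z) • shearFun k l x) =
      OnePoint.some (shearFun k l (((1 - z) / z) • shearFun k l (z • x)))
    congr 1
    funext j
    by_cases hj : j = l
    · subst hj
      have e1 : ∑ i, (if i = l then 0 else (((1 - z) / z) • shearFun k l (z • x)) i ^ 2) =
          (1 - z) ^ 2 * ∑ i, (if i = l then 0 else x i ^ 2) := by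
        rw [Finset.mul_sum]
        refine Finset.sum_congr rfl fun i _ => ?_
        by_cases hi : i = l
        · simp [hi]
        · simp only [hi, if_false, shearFun, Pi.smul_apply, smul_eq_mul, add_zero]
          field_simp
      have e2 : ∑ i, (if i = l then 0 else (z • x) i ^ 2) =
          z ^ 2 * ∑ i, (if i = l then 0 else x i ^ 2) := by
        rw [Finset.mul_sum]
        refine Finset.sum_congr rfl fun i _ => ?_
        by_cases hi : i = l
        · simp [hi]
        · simp only [hi, if_false, Pi.smul_apply, smul_eq_mul]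
          ring
      conv_rhs => rw [shearFun, if_pos rfl, e1]
      simp only [Pi.smul_apply, smul_eq_mul]
      rw [shearFun, if_pos rfl]
      rw [shearFun, if_pos rfl, e2]
      simp only [Pi.smul_apply, smul_eq_mul]
      field_simp
      ring
    · simp only [shearFun, hj, if_false, add_zero, Pi.smul_apply, smul_eq_mul]
      field_simp
  · intro h
    have h1 := congrFun h (OnePoint.some (Pi.single a 1))
    rw [hval] at h1
    exact hsing (OnePoint.coe_injective h1)
  · intro h
    have h1 := congrFun h (OnePoint.some (Pi.single a 1))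
    rw [hval] at h1
    have h2 := congrFun (OnePoint.coe_injective h1) a
    simp [shearFun, hal] at h2
  · intro h
    have h1 := congrFun h (OnePoint.some 0)
    rw [hval] at h1
    exact OnePoint.coe_ne_infty _ h1
  · intro ℓ hℓ
    constructor
    · intro h
      have h1 := congrFun h (OnePoint.some (fun _ => -1))
      have h2 : phiOne k (OnePoint.some (fun _ => -1)) = OnePoint.infty := by
        change (if ∑ i : Fin k, ((-1 : ℝ) + 1) ^ 2 = 0 then OnePoint.infty else _) = _
        simp
      rw [h2] at h1
      exact OnePoint.coe_ne_infty _ h1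
    · intro d _ _ h
      have conj : ∀ x : Fin k → ℝ,
          shearFun k l (ℓ x) = ℓ (fun j => d j * (∑ i, x i) ^ 2 + x j) := by
        intro x
        have h1 := congrFun h (OnePoint.some x)
        have h2 : ℓ.symm (shearFun k l (ℓ x)) = fun j => d j * (∑ i, x i) ^ 2 + x j :=
          OnePoint.coe_injective h1
        rw [← h2, Equiv.apply_symm_apply]
      have fixed : ∀ x : Fin k → ℝ, ∑ i, x i = 0 → ∀ i, i ≠ l → (ℓ x) i = 0 := by
        intro x hx
        have h1 := conj x
        have h3 : (fun j => d j * (∑ i, x i) ^ 2 + x j) = x := by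
          funext j
          rw [hx]
          ring
        rw [h3] at h1
        exact fixed_axis l _ h1
      -- two independent vectors in the hyperplane of fixed points
      set u : Fin k → ℝ := Pi.single a 1 - Pi.single b 1 with hu
      set v : Fin k → ℝ := Pi.single b 1 - Pi.single l 1 with hv
      have hu0 := fixed u (by simp [hu, Finset.sum_sub_distrib])
      have hv0 := fixed v (by simp [hv, Finset.sum_sub_distrib])
      have h0 : ℓ 0 = 0 := by
        have := hℓ 0 0
        simpa using this
      have hul : ℓ u l ≠ 0 := by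
        intro hc
        have : ℓ u = 0 := by
          funext j
          by_cases hj : j = l
          · rw [hj, hc]; rfl
          · exact hu0 j hj
        rw [← h0] at this
        have h4 := congrFun (ℓ.injective this) a
        simp [hu, hab] at h4
      have heq : ℓ ((ℓ v l / ℓ u l) • u) = ℓ v := by
        rw [hℓ]
        funext j
        by_cases hj : j = l
        · subst hj
          simp only [Pi.smul_apply, smul_eq_mul]
          field_simp
        · simp [hu0 j hj, hv0 j hj]
      have h5 := ℓ.injective heq
      have h6 := congrFun h5 l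
      simp [hu, hv, hal.symm, hbl.symm] at h6

end Pool.Agent.Results.MP_925f0d_gt.EveryDim
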